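import Pool.Agent.Lib_helper92.LS.Final

set_option autoImplicit false

open Finset

namespace Pool.Agent.Results.MP_cf5f8b_an.LowSensitivity

/-- The average of `g` over the cube (a bit `b` stands for the sign `(-1)^b`). -/
noncomputable def E {n : ℕ} (g : (Fin n → Bool) → ℝ) : ℝ :=
  ((2 : ℝ) ^ n)⁻¹ * ∑ x : Fin n → Bool, g x

/-- The Fourier coefficient of `f` at the set `T`. -/
noncomputable def fhat {n : ℕ} (f : (Fin n → Bool) → ℝ) (T : Finset (Fin n)) : ℝ :=
  E fun x => f x * ∏ i ∈ T, (-1 : ℝ) ^ (x i).toNat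

/-- The variance of `f`. -/
noncomputable def Var {n : ℕ} (f : (Fin n → Bool) → ℝ) : ℝ := E (fun x => f x ^ 2) - E f ^ 2

/-- The influence of the coordinate `j`. -/
noncomputable def Inf {n : ℕ} (f : (Fin n → Bool) → ℝ) (j : Fin n) : ℝ :=
  E fun x => ((f x - f (Function.update x j (!x j))) / 2) ^ 2

/-- The noise stability `∑_{T ≠ ∅} 2^{-|T|} f^(T)^2`. -/
noncomputable def Stab {n : ℕ} (f : (Fin n → Bool) → ℝ) : ℝ :=
  ∑ T ∈ univ.erase (∅ : Finset (Fin n)), (1 / 2 : ℝ) ^ T.card * fhat f T ^ 2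

/-- The variance on the levels `1, ..., k`. -/
noncomputable def Low {n : ℕ} (f : (Fin n → Bool) → ℝ) (k : ℕ) : ℝ :=
  ∑ T ∈ univ.filter (fun T : Finset (Fin n) => T.card ≠ 0 ∧ T.card ≤ k), fhat f T ^ 2

lemma E_eq {n : ℕ} (g : (Fin n → Bool) → ℝ) : E g = Lib_helper8.QP.av g := by
  unfold E Lib_helper8.QP.av
  rw [Fintype.card_fin]

lemma fhat_eq {n : ℕ} (f : (Fin n → Bool) → ℝ) (T : Finset (Fin n)) :
    fhat f T = Lib_helper30.AA.coef f T := by
  unfold fhat E Lib_helper30.AA.coef Lib_helper30.AA.chi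
  rw [Fintype.card_fin]

lemma Inf_eq {n : ℕ} (f : (Fin n → Bool) → ℝ) (j : Fin n) :
    Inf f j = Lib_helper8.QP.inf f j := by
  unfold Inf Lib_helper8.QP.inf
  rw [E_eq]
  unfold Lib_helper8.QP.av
  congr 1
  refine Finset.sum_congr rfl fun x _ => ?_
  exact (Lib_helper9.QP.D_sq j f x).symm

lemma Var_le_one {n : ℕ} {f : (Fin n → Bool) → ℝ} (hf : ∀ x, |f x| ≤ 1) : Var f ≤ 1 := by
  have h1 : E (fun x => f x ^ 2) ≤ 1 := by
    rw [E_eq]
    refine Lib_helper8.QP.av_le_const fun x => ?_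
    rw [← sq_abs]
    nlinarith [abs_nonneg (f x), hf x]
  unfold Var
  nlinarith [sq_nonneg (E f)]

/-- **The Aaronson-Ambainis inequality, with polynomial bounds, for all bounded functions of low
average sensitivity (and for all noise stable bounded functions).**

Let `f : {-1,1}^n → [-1,1]` have Fourier degree at most `d`. Then:
(a) if the noise stability `S = ∑_{T ≠ ∅} 2^{-|T|} f^(T)^2` is positive, some influence is at
    least `(S / (4d)^5)^80`;
(b) if `f` is not constant, some influence is at least `(Var f * 2^(-I/Var f) / (4d)^5)^80`,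
    where `I` is the total influence (so `I / Var f` is the average Fourier level);
(c) if moreover `I ≤ K * Var f * log_2 (4d)`, some influence is at least
    `(Var f / (4d))^(80 (K+5))`;
(d) if `W` is the variance of `f` on the levels `1, ..., k`, `W > 0`, some influence is at least
    `(W 2^{-k} / (4d)^5)^80`. -/
theorem result (n : ℕ) (f : (Fin n → Bool) → ℝ) (hf : ∀ x, |f x| ≤ 1) (d : ℕ) (hd : 1 ≤ d)
    (hdeg : ∀ T : Finset (Fin n), d < T.card → fhat f T = 0) :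
    (0 < Stab f → ∃ j, (Stab f / (4 * (d : ℝ)) ^ 5) ^ 80 ≤ Inf f j) ∧
    (0 < Var f → ∃ j,
      (Var f * (2 : ℝ) ^ (-((∑ i, Inf f i) / Var f)) / (4 * (d : ℝ)) ^ 5) ^ 80 ≤ Inf f j) ∧
    (∀ K : ℝ, 0 ≤ K → 0 < Var f → ∑ i, Inf f i ≤ K * Var f * Real.logb 2 (4 * d) →
      ∃ j, (Var f / (4 * (d : ℝ))) ^ (80 * (K + 5)) ≤ Inf f j) ∧
    (∀ k : ℕ, 0 < Low f k → ∃ j,
      (Low f k * (1 / 2 : ℝ) ^ k / (4 * (d : ℝ)) ^ 5) ^ 80 ≤ Inf f j) := by
  have hlow : Lib_helper8.QP.LowDeg d f := fun S hS => by rw [← fhat_eq]; exact hdeg S hS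
  have hInf : ∀ j, Lib_helper8.QP.inf f j = Inf f j := fun j => (Inf_eq f j).symm
  have htot : 0 < Var f → ∃ j,
      (Var f * (2 : ℝ) ^ (-((∑ i, Inf f i) / Var f)) / (4 * (d : ℝ)) ^ 5) ^ 80 ≤ Inf f j := by
    intro hV
    have h := Lib_helper92.LS.total hd f hf hlow (V := Var f) hV
      (by unfold Var; rw [E_eq, E_eq])
    simp_rw [hInf] at h
    exact h
  refine ⟨fun hS => ?_, htot, fun K hK hV hI => ?_, fun k hk => ?_⟩
  · obtain ⟨j, hj⟩ := Lib_helper92.LS.stab hd f hf hlow (s := Stab f) hS (by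
      unfold Stab
      exact le_of_eq (Finset.sum_congr rfl fun T _ => by rw [fhat_eq]))
    exact ⟨j, by rw [← hInf]; exact hj⟩
  · obtain ⟨j, hj⟩ := htot hV
    refine ⟨j, le_trans ?_ hj⟩
    have hd0 : (1 : ℝ) ≤ d := by exact_mod_cast hd
    have h4 : (1 : ℝ) < 4 * d := by linarith
    have h40 : (0 : ℝ) < 4 * d := by linarith
    have hV1 := Var_le_one hf
    have h1 : (Var f / (4 * (d : ℝ))) ^ (80 * (K + 5)) =
        ((Var f / (4 * (d : ℝ))) ^ (K + 5)) ^ 80 := by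
      rw [← Real.rpow_natCast, ← Real.rpow_mul (by positivity)]
      congr 1; push_cast; ring
    rw [h1]
    apply pow_le_pow_left₀ (by positivity)
    rw [Real.div_rpow hV.le h40.le]
    have h2 : Var f ^ (K + 5) ≤ Var f := by
      calc Var f ^ (K + 5) ≤ Var f ^ (1 : ℝ) :=
            Real.rpow_le_rpow_of_exponent_ge hV hV1 (by linarith)
        _ = Var f := Real.rpow_one _
    have h3 : (4 * (d : ℝ)) ^ (K + 5) = (4 * (d : ℝ)) ^ K * (4 * (d : ℝ)) ^ 5 := by
      rw [Real.rpow_add h40]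
      congr 1
      rw [← Real.rpow_natCast]; norm_num
    have h5 : ((4 * (d : ℝ)) ^ K)⁻¹ ≤ (2 : ℝ) ^ (-((∑ i, Inf f i) / Var f)) := by
      have h6 : (4 * (d : ℝ)) ^ K = (2 : ℝ) ^ (K * Real.logb 2 (4 * d)) := by
        rw [mul_comm K, Real.rpow_mul (by norm_num), Real.rpow_logb (by norm_num) (by norm_num) h40]
      rw [h6, ← Real.rpow_neg (by norm_num)]
      apply Real.rpow_le_rpow_of_exponent_le (by norm_num)
      apply neg_le_neg
      rw [div_le_iff₀ hV]
      linarith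
    rw [h3]
    calc Var f ^ (K + 5) / ((4 * (d : ℝ)) ^ K * (4 * (d : ℝ)) ^ 5)
        ≤ Var f / ((4 * (d : ℝ)) ^ K * (4 * (d : ℝ)) ^ 5) :=
          div_le_div_of_nonneg_right h2 (by positivity)
      _ = Var f * ((4 * (d : ℝ)) ^ K)⁻¹ / (4 * (d : ℝ)) ^ 5 := by
          field_simp
      _ ≤ _ := by
          apply div_le_div_of_nonneg_right _ (by positivity)
          exact mul_le_mul_of_nonneg_left h5 hV.le
  · obtain ⟨j, hj⟩ := Lib_helper92.LS.level hd f hf hlow k (V := Low f k) hk (by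
      unfold Low
      exact Finset.sum_congr rfl fun T _ => by rw [fhat_eq])
    exact ⟨j, by rw [← hInf]; exact hj⟩

end Pool.Agent.Results.MP_cf5f8b_an.LowSensitivity
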